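import Pool.Agent.P.MP_c446d6_co.Upper

/-!
The product formula for the cross-index of face posets fails for the cyclic group of order 4,
for connected complexes and with an unbounded gap.
-/

set_option autoImplicit false
open scoped Pointwise

namespace Pool.Agent.Results.MP_c446d6_co.ConnectedGap

open Pool.Agent.P.MP_c446d6_co.Conn

theorem result (d : ℕ) (hd : 2 ≤ d) :
    ∃ (V₁ V₂ : Type) (_ : Fintype V₁) (_ : Fintype V₂) (_ : DecidableEq V₁) (_ : DecidableEq V₂)
      (_ : MulAction (Multiplicative (ZMod 4)) V₁) (_ : MulAction (Multiplicative (ZMod 4)) V₂)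
      (K₁ : Set (Finset V₁)) (K₂ : Set (Finset V₂)),
      IsFreeComplex (Multiplicative (ZMod 4)) V₁ K₁ ∧
      IsFreeComplex (Multiplicative (ZMod 4)) V₂ K₂ ∧
      IsConnectedComplex K₁ ∧ IsConnectedComplex K₂ ∧
      XindEq (Multiplicative (ZMod 4)) K₁ (2 * d) ∧
      XindEq (Multiplicative (ZMod 4)) K₂ (2 * d) ∧
      ∃ n ≤ d + 1, XindEq (Multiplicative (ZMod 4)) (K₁ ×ˢ K₂) n := by
  classical
  let _ := actV (Fin (2 * d + 1))
  let _ := actV (Fin (d + 1) × Fin (d + 1))
  have h : ∃ n, HasMapTo G4 (K1 (2 * d) ×ˢ K2 d) n := ⟨_, upperP⟩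
  exact ⟨V (2 * d), V2 d, inferInstance, inferInstance, _, _, actV _, actV _, K1 (2 * d), K2 d,
    free1, free2, conn1, conn2 (by omega),
    ⟨upper1 (by omega), fun n hn => not_lt.1 fun c => lower1 c hn⟩,
    ⟨upper2, fun n hn => not_lt.1 fun c => lower2 c hn⟩,
    Nat.find h, Nat.find_min' h upperP, Nat.find_spec h, fun n hn => Nat.find_min' h hn⟩

end Pool.Agent.Results.MP_c446d6_co.ConnectedGap
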